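import Pool.Agent.W345.GK.Gau

set_option autoImplicit false

open Polynomial Finset

namespace Pool.Agent.W816.GK.Fx

open Pool.Agent.W345.GK

/-- sum of the digits modulo `q - 1` -/
theorem dig_sum (q κ d : ℕ) : ((q : ℤ) - 1) ∣ (κ : ℤ) - ((∑ j ∈ range d, dig q κ j : ℕ) : ℤ) -
    ((κ / q ^ d : ℕ) : ℤ) := by
  induction d with
  | zero => simp
  | succ d ih =>
    rw [sum_range_succ]
    have h1 : κ / q ^ (d + 1) = κ / q ^ d / q := by rw [pow_succ, Nat.div_div_eq_div_mul]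
    have h2 : κ / q ^ d = q * (κ / q ^ d / q) + κ / q ^ d % q := (Nat.div_add_mod _ _).symm
    have h3 : ((κ / q ^ d : ℕ) : ℤ) = q * ((κ / q ^ d / q : ℕ) : ℤ) + ((κ / q ^ d % q : ℕ) : ℤ) := by
      exact_mod_cast h2
    have h4 : dig q κ d = κ / q ^ d % q := rfl
    rw [h1, h4]
    have h5 : (κ : ℤ) - ((∑ j ∈ range d, dig q κ j + κ / q ^ d % q : ℕ) : ℤ) -
        ((κ / q ^ d / q : ℕ) : ℤ) =
        ((κ : ℤ) - ((∑ j ∈ range d, dig q κ j : ℕ) : ℤ) - ((κ / q ^ d : ℕ) : ℤ)) +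
          ((q : ℤ) - 1) * ((κ / q ^ d / q : ℕ) : ℤ) := by
      rw [h3]
      push_cast
      ring
    rw [h5]
    exact dvd_add ih (dvd_mul_right _ _)

theorem dig_dvd (q κ d : ℕ) (hq : 1 ≤ q) (h1 : κ < q ^ d) (h2 : (q - 1) ∣ κ) :
    (q - 1) ∣ ∑ j ∈ range d, dig q κ j := by
  have h := dig_sum q κ d
  rw [Nat.div_eq_of_lt h1] at h
  have h3 : ((q : ℤ) - 1) = ((q - 1 : ℕ) : ℤ) := by
    rw [Nat.cast_sub hq, Nat.cast_one]
  rw [h3, Nat.cast_zero, sub_zero] at h
  have h4 : ((q - 1 : ℕ) : ℤ) ∣ (κ : ℤ) := by exact_mod_cast h2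
  have h5 := (dvd_sub_right h4).1 h
  exact_mod_cast h5

theorem fx : S_I1 → S_C3 → S_TAU → S_GS → S_FX := by
  intro hI1 hC3 hTAU hGS k F _ _ _ _ P θ Lam κ hPm hPi hPθ hLam hκ0 hκ1 hκ2 h
  obtain ⟨hinj, -⟩ := hI1 k F
  obtain ⟨-, -, hprod, -⟩ := hC3 k F P θ hPm hPi hPθ
  obtain ⟨t, ht0, ht1, ht2, ht3, ht4⟩ := hTAU k F
  obtain ⟨-, -, hg3, hg4⟩ := hGS k F P θ Lam hPm hPi hPθ hLam
  have hg := hg4 t ht0 ht1 ht3
  set q := Fintype.card k with hq
  set d := P.natDegree with hd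
  have hq1 : 1 ≤ q := Fintype.card_pos
  set G := GG P θ Lam κ with hG
  have hG0 : G ≠ 0 := by
    rw [hG]
    unfold GG
    exact prod_ne_zero_iff.2 (fun j _ => pow_ne_zero _ (hg3 j))
  set V : F[X] := ∏ j ∈ range d, (C (θ ^ q ^ j) - X) ^ dig q κ j with hV
  have htG : t G = iF q V * G := by
    rw [hG]
    unfold GG
    rw [map_prod, hV, map_prod, ← prod_mul_distrib]
    refine prod_congr rfl (fun j _ => ?_)
    rw [map_pow, hg, mul_pow, map_pow (iF q)]
  set PF : F[X] := P.map (algebraMap k F) with hPF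
  have hVR : V * RR q d θ κ = PF ^ (q - 1) := by
    have e1 : ∀ j ∈ range d, (C (θ ^ q ^ j) - X : F[X]) ^ dig q κ j *
        (X - C (θ ^ q ^ j)) ^ (q - 1 - dig q κ j) =
        (-1) ^ dig q κ j * (X - C (θ ^ q ^ j)) ^ (q - 1) := by
      intro j _
      have e2 : dig q κ j ≤ q - 1 := by
        have : dig q κ j < q := Nat.mod_lt _ (by omega)
        omega
      have e3 : (C (θ ^ q ^ j) - X : F[X]) = (-1) * (X - C (θ ^ q ^ j)) := by ring
      rw [e3, mul_pow, mul_assoc, ← pow_add, Nat.add_sub_cancel' e2]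
    rw [hV]
    unfold RR
    rw [← prod_mul_distrib, prod_congr rfl e1, prod_mul_distrib, prod_pow, ← hprod,
      prod_pow_eq_pow_sum]
    obtain ⟨e, he⟩ := dig_dvd q κ d hq1 (by omega) hκ2
    rw [he, pow_mul]
    have e4 : (-1 : F[X]) ^ (q - 1) = 1 := by
      have e5 : (-1 : k) ^ (q - 1) = 1 := FiniteField.pow_card_sub_one_eq_one (-1) (by
        exact neg_ne_zero.2 one_ne_zero)
      have e6 : (-1 : F[X]) = C (algebraMap k F (-1)) := by simp
      rw [e6, ← map_pow, ← map_pow, e5, map_one, map_one]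
    rw [e4, one_pow, one_mul]
  have hiA : (iA P : LS F) = iF q PF := rfl
  have hPF0 : PF ≠ 0 := by
    rw [hPF]
    exact (hPm.map (algebraMap k F)).ne_zero
  have hiP0 : iF q PF ≠ 0 := by
    intro h0
    exact hPF0 (hinj (by rw [h0, map_zero]))
  have htP : t (iF q PF) = (iF q PF) ^ q := by
    rw [ht2, ← map_pow]
    congr 1
    rw [hPF, ← Polynomial.map_expand, hq, FiniteField.expand_card, Polynomial.map_pow]
  set y : LS F := G / iF q PF with hy
  have hy0 : y ≠ 0 := div_ne_zero hG0 hiP0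
  have hx : t y * iF q (h * RR q d θ κ) = iF q h * y := by
    rw [hy, map_div₀, htG, htP]
    have e1 : (iF q PF) ^ q = (iF q PF) ^ (q - 1) * iF q PF := by
      rw [← pow_succ, Nat.sub_add_cancel hq1]
    have e2 : iF q V * iF q (RR q d θ κ) = (iF q PF) ^ (q - 1) := by
      rw [← map_mul, hVR, map_pow]
    rw [e1, map_mul]
    have e3 : (iF q PF) ^ (q - 1) ≠ 0 := pow_ne_zero _ hiP0
    calc iF q V * G / ((iF q PF) ^ (q - 1) * iF q PF) * (iF q h * iF q (RR q d θ κ))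
        = (iF q V * iF q (RR q d θ κ)) * (iF q h * G) / ((iF q PF) ^ (q - 1) * iF q PF) := by ring
      _ = (iF q PF) ^ (q - 1) * (iF q h * G) / ((iF q PF) ^ (q - 1) * iF q PF) := by rw [e2]
      _ = iF q h * G / iF q PF := mul_div_mul_left _ _ e3
      _ = iF q h * (G / iF q PF) := by ring
  have hx2 : iF q h / iA P * G = iF q h * y := by
    rw [hiA, hy]
    ring
  rw [hx2]
  constructor
  · intro hfix
    have h1 : iF q h * y = y * iF q (UU q (h * RR q d θ κ)) := by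
      ext j
      rw [hfix j, ← hx]
      exact ht4 y _ j
    have h2 : y * iF q h = y * iF q (UU q (h * RR q d θ κ)) := by
      rw [mul_comm y, h1]
    exact (hinj (mul_left_cancel₀ hy0 h2)).symm
  · intro hU j
    have h1 := ht4 y (h * RR q d θ κ) j
    rw [hx, hU] at h1
    rw [h1, mul_comm]

end Pool.Agent.W816.GK.Fx
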